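import Pool.Agent.H442FD.Asy
import Pool.Agent.H442SN.Count

/-! Packings in which mutually close centres are few (MP_dbfdb2_gt; helper442). -/

open Metric Filter Set
open scoped Topology
open Pool.Agent.H818R2 Pool.Agent.TH220.NT
open Pool.Agent.H442SN (ramsey choose_le_pow' card_le_of_det far_card)

namespace Pool.Agent.H442FD2

open Pool.Agent.H442FD (dens_of_local)

variable {n : ℕ}

/-- In a ball of radius `t √(2m/(m+1)) r` a packing has few centres if mutually close centres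
(distances less than `2 t r`) are few. -/
theorem ramsey_local {Y : Set (EuclideanSpace ℝ (Fin n))} {r t : ℝ} (ht : 0 < t) (hr : 0 < r)
    {m N : ℕ} (hclose : ∀ Q : Finset (EuclideanSpace ℝ (Fin n)), ↑Q ⊆ Y →
      (∀ x ∈ Q, ∀ y ∈ Q, x ≠ y → dist x y < 2 * t * r) → Q.card ≤ N)
    (z : EuclideanSpace ℝ (Fin n)) (P : Finset (EuclideanSpace ℝ (Fin n))) (hPY : ↑P ⊆ Y)
    (hP : ∀ x ∈ P, dist x z < t * √(2 * m / (m + 1)) * r) :
    P.card ≤ (m + N).choose m - 1 := by
  classical
  have hm1 : (0 : ℝ) < (m : ℝ) + 1 := by positivity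
  set ρ : ℝ := t * √(2 * m / (m + 1)) * r with hρ
  have hρ2 : ρ ^ 2 = t ^ 2 * (2 * m / (m + 1)) * r ^ 2 := by
    rw [hρ, mul_pow, mul_pow, Real.sq_sqrt (by positivity)]
  have h := ramsey (fun x y : EuclideanSpace ℝ (Fin n) => 2 * t * r ≤ dist x y)
    (fun x y h => by rwa [dist_comm]) m N P
    (by
      intro Q hQ hfar
      rcases Q.eq_empty_or_nonempty with rfl | hne
      · simp
      · have h1 := far_card Q (fun x i => x i - z i) (c := ρ ^ 2) (d := (2 * t * r) ^ 2)
          (fun x hx => by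
            have h2 := hP x (hQ hx)
            have h3 : ∑ i, (x i - z i) ^ 2 = dist x z ^ 2 := by
              rw [EuclideanSpace.dist_eq, Real.sq_sqrt (Finset.sum_nonneg fun i _ => sq_nonneg _)]
              refine Finset.sum_congr rfl fun i _ => ?_
              rw [Real.dist_eq, sq_abs]
            rw [h3]
            exact pow_lt_pow_left₀ h2 dist_nonneg (by norm_num))
          (fun x hx y hy hxy => by
            have h2 := hfar x hx y hy hxy
            have h3 : ∑ i, ((x i - z i) - (y i - z i)) ^ 2 = dist x y ^ 2 := by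
              rw [EuclideanSpace.dist_eq, Real.sq_sqrt (Finset.sum_nonneg fun i _ => sq_nonneg _)]
              refine Finset.sum_congr rfl fun i _ => ?_
              rw [Real.dist_eq, sq_abs]
              ring
            rw [h3]
            exact pow_le_pow_left₀ (by positivity) h2 2) hne
        rw [hρ2] at h1
        have h2 : ((Q.card : ℝ) - 1) * (m + 1) < Q.card * m := by
          have e1 : ((Q.card : ℝ) - 1) * (2 * t * r) ^ 2 =
              (((Q.card : ℝ) - 1) * (m + 1)) * (4 * t ^ 2 * r ^ 2 / (m + 1)) := by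
            field_simp
            ring
          have e2 : 2 * (Q.card : ℝ) * (t ^ 2 * (2 * m / (m + 1)) * r ^ 2) =
              (Q.card * m) * (4 * t ^ 2 * r ^ 2 / (m + 1)) := by
            field_simp
            ring
          rw [e1, e2] at h1
          exact lt_of_mul_lt_mul_right h1 (by positivity)
        have h5 : (Q.card : ℝ) < m + 1 := by linarith
        have h6 : Q.card < m + 1 := by exact_mod_cast h5
        omega)
    (by
      intro Q hQ hnear
      apply hclose Q (fun x hx => hPY (hQ hx))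
      intro x hx y hy hxy
      exact not_le.1 (hnear x hx y hy hxy))
  omega

/-- **The density bound.** -/
theorem dens_of_close {Y : Set (EuclideanSpace ℝ (Fin n))} {r t : ℝ} (hY : IsPacking Y r)
    (ht : 0 < t) {m N : ℕ} (hm : 1 ≤ m)
    (hclose : ∀ Q : Finset (EuclideanSpace ℝ (Fin n)), ↑Q ⊆ Y →
      (∀ x ∈ Q, ∀ y ∈ Q, x ≠ y → dist x y < 2 * t * r) → Q.card ≤ N) :
    upperDensity Y r ≤ (((m + N).choose m - 1 : ℕ) : ℝ) * (√((m + 1) / (2 * m)) / t) ^ n := by
  have hm0 : (0 : ℝ) < m := by exact_mod_cast hm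
  have h := dens_of_local (N := (m + N).choose m - 1) (t := t * √(2 * m / (m + 1))) hY
    (by positivity) (fun z P hPY hP => ramsey_local ht hY.1 hclose z P hPY hP)
  simp only [finrank_euclideanSpace, Fintype.card_fin] at h
  have e : 1 / (t * √(2 * m / (m + 1))) = √((m + 1) / (2 * m)) / t := by
    have e1 : √((m + 1 : ℝ) / (2 * m)) = (√(2 * m / (m + 1)))⁻¹ := by
      rw [← Real.sqrt_inv, inv_div]
    rw [e1, one_div, mul_inv, mul_comm]
    exact (div_eq_mul_inv _ _).symm
  rwa [e] at h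

/-- **Asymptotic form.** -/
theorem close_asym {δ : ℝ} (hδ : 0 < δ) : ∃ σ : ℝ, 0 < σ ∧ ∀ᶠ n : ℕ in atTop,
    ∀ (Y : Set (EuclideanSpace ℝ (Fin n))) (r t : ℝ), IsPacking Y r → 0 < t → ∀ N : ℕ,
      (N : ℝ) ≤ (2 : ℝ) ^ (σ * n) →
      (∀ Q : Finset (EuclideanSpace ℝ (Fin n)), ↑Q ⊆ Y →
        (∀ x ∈ Q, ∀ y ∈ Q, x ≠ y → dist x y < 2 * t * r) → Q.card ≤ N) →
      upperDensity Y r ≤ ((2 : ℝ) ^ δ / (√2 * t)) ^ n := by
  have hδ1 : 1 < (2 : ℝ) ^ δ := Real.one_lt_rpow (by norm_num) hδ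
  set m : ℕ := ⌈1 / ((2 : ℝ) ^ δ - 1)⌉₊ with hm
  have h0 : 0 < (2 : ℝ) ^ δ - 1 := by linarith
  have hmr : 1 / ((2 : ℝ) ^ δ - 1) ≤ m := Nat.le_ceil _
  have hm0 : (0 : ℝ) < m := lt_of_lt_of_le (by positivity) hmr
  have hm1 : 1 ≤ m := by exact_mod_cast hm0
  have hmr2 : ((m : ℝ) + 1) / m ≤ (2 : ℝ) ^ δ := by
    rw [div_le_iff₀ h0] at hmr
    rw [div_le_iff₀ hm0]
    nlinarith
  refine ⟨δ / (4 * m), by positivity, ?_⟩
  filter_upwards [eventually_ge_atTop ⌈4 * m / δ⌉₊] with n hn Y r t hY ht N hN hclose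
  have hn2 : 4 * m / δ ≤ n := (Nat.le_ceil _).trans (by exact_mod_cast hn)
  have h1 := dens_of_close hY ht hm1 hclose
  have hN2 : (N : ℝ) + 1 ≤ (2 : ℝ) ^ (δ / (2 * m) * n) := by
    rw [div_le_iff₀ hδ] at hn2
    have h2 : (2 : ℝ) ≤ (2 : ℝ) ^ (δ / (4 * m) * n) := by
      calc (2 : ℝ) = (2 : ℝ) ^ (1 : ℝ) := (Real.rpow_one 2).symm
        _ ≤ _ := Real.rpow_le_rpow_of_exponent_le (by norm_num) (by
          rw [div_mul_eq_mul_div, le_div_iff₀ (by positivity)]
          linarith)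
    calc (N : ℝ) + 1 ≤ (2 : ℝ) ^ (δ / (4 * m) * n) * (2 : ℝ) ^ (δ / (4 * m) * n) := by nlinarith
      _ = (2 : ℝ) ^ (δ / (2 * m) * n) := by
          rw [← Real.rpow_add (by norm_num)]
          congr 1
          field_simp
          ring
  have hC : (((m + N).choose m - 1 : ℕ) : ℝ) ≤ ((2 : ℝ) ^ (δ / 2)) ^ n := by
    calc (((m + N).choose m - 1 : ℕ) : ℝ) ≤ (((m + N).choose m : ℕ) : ℝ) := by
          exact_mod_cast Nat.sub_le _ _
      _ ≤ (((N + 1) ^ m : ℕ) : ℝ) := by exact_mod_cast choose_le_pow' N m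
      _ = ((N : ℝ) + 1) ^ m := by push_cast; ring
      _ ≤ ((2 : ℝ) ^ (δ / (2 * m) * n)) ^ m := pow_le_pow_left₀ (by positivity) hN2 m
      _ = ((2 : ℝ) ^ (δ / 2)) ^ n := by
          rw [← Real.rpow_natCast, ← Real.rpow_mul (by norm_num), ← Real.rpow_natCast _ n,
            ← Real.rpow_mul (by norm_num)]
          congr 1
          field_simp
  have hs : √((m + 1 : ℝ) / (2 * m)) / t ≤ (2 : ℝ) ^ (δ / 2) / (√2 * t) := by
    have e1 : √((m + 1 : ℝ) / (2 * m)) = √((m + 1) / m) / √2 := by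
      rw [← Real.sqrt_div (by positivity)]
      congr 1
      field_simp
    have e2 : √(((m : ℝ) + 1) / m) ≤ (2 : ℝ) ^ (δ / 2) := by
      rw [Real.sqrt_le_left (by positivity), ← Real.rpow_natCast, ← Real.rpow_mul (by norm_num)]
      refine hmr2.trans (le_of_eq ?_)
      congr 1
      push_cast
      ring
    rw [e1, div_div]
    exact div_le_div_of_nonneg_right e2 (by positivity)
  calc upperDensity Y r ≤ _ := h1
    _ ≤ ((2 : ℝ) ^ (δ / 2)) ^ n * ((2 : ℝ) ^ (δ / 2) / (√2 * t)) ^ n :=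
        mul_le_mul hC (pow_le_pow_left₀ (by positivity) hs n) (by positivity) (by positivity)
    _ = ((2 : ℝ) ^ δ / (√2 * t)) ^ n := by
        rw [← mul_pow, ← mul_div_assoc, ← Real.rpow_add (by norm_num)]
        congr 3
        ring

/-- **Kernels.** -/
theorem kernel_close {E : Type*} [DecidableEq E] {K R k : Type*} [Field K] [CommRing R] [Field k]
    {ψ : R →+* K} (hψ : Function.Injective ψ) (φ : R →+* k) {Y : Set E} (F : Y → Y → R)
    (V : Submodule K (Y → K)) (hfin : FiniteDimensional K V) {D : ℕ}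
    (hV : Module.finrank K V ≤ D) (hrow : ∀ x, (fun y => ψ (F x y)) ∈ V)
    (hd : ∀ x, φ (F x x) ≠ 0) (Q : Finset E) (hQ : ↑Q ⊆ Y)
    (hoff : ∀ x y : Y, x.1 ∈ Q → y.1 ∈ Q → x ≠ y → φ (F x y) = 0) : Q.card ≤ D := by
  classical
  set j : Q → Y := fun x => ⟨x.1, hQ x.2⟩ with hj
  have hjne : ∀ x y : Q, x ≠ y → j x ≠ j y := by
    intro x y hxy h
    apply hxy
    apply Subtype.ext
    have := congrArg Subtype.val h
    exact this
  set T : (Y → K) →ₗ[K] (Q → K) := LinearMap.funLeft K K j with hT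
  have hmap : Module.finrank K (V.map T) ≤ D := (Submodule.finrank_map_le T V).trans hV
  have hmem : ∀ x : Q, (fun y : Q => ψ (F (j x) (j y))) ∈ V.map T := fun x =>
    ⟨_, hrow (j x), rfl⟩
  have hdet : (Matrix.of (fun x y : Q => ψ (F (j x) (j y)))).det ≠ 0 := by
    set M : Matrix Q Q R := Matrix.of fun x y : Q => F (j x) (j y) with hM
    have e : Matrix.of (fun x y : Q => ψ (F (j x) (j y))) = ψ.mapMatrix M := by
      ext x y
      rfl
    rw [e, ← RingHom.map_det]
    have e2 : φ M.det ≠ 0 := by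
      rw [RingHom.map_det]
      have e3 : φ.mapMatrix M = Matrix.diagonal (fun x : Q => φ (F (j x) (j x))) := by
        ext x y
        rw [RingHom.mapMatrix_apply, Matrix.map_apply, hM, Matrix.of_apply]
        by_cases hxy : x = y
        · subst hxy
          rw [Matrix.diagonal_apply_eq]
        · rw [Matrix.diagonal_apply_ne _ hxy]
          exact hoff (j x) (j y) x.2 y.2 (hjne x y hxy)
      rw [e3, Matrix.det_diagonal]
      exact Finset.prod_ne_zero_iff.2 fun x _ => hd (j x)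
    intro h
    apply e2
    have h2 : M.det = 0 := hψ (by rw [h, map_zero])
    rw [h2, map_zero]
  have h := card_le_of_det (V.map T) hmap _ hmem hdet
  rwa [Fintype.card_coe] at h

end Pool.Agent.H442FD2
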