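import Pool.Agent.H442FD2.Close
import Pool.Agent.H442SN.Poly

/-! Few distances, windows, prime powers (MP_dbfdb2_gt; helper442). -/

open Metric Filter Set
open scoped Topology
open Pool.Agent.H818R2 Pool.Agent.TH220.NT

namespace Pool.Agent.H442FD2

open Pool.Agent.H442FD (fewDist fewWindows local_card sep_gen sub_packing few_sub choose_small zc)

variable {n : ℕ}

theorem close_bound {X : Set (EuclideanSpace ℝ (Fin n))} {r t ε : ℝ} {s k : ℕ}
    (hX : IsPacking X r) (ht : 1 ≤ t) (hε : 0 ≤ ε)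
    (P : Finset (EuclideanSpace ℝ (Fin n))) (hP : ↑P ⊆ fewWindows X r t s ε)
    (hz : ∀ x ∈ P, ∀ y ∈ P, x ≠ y → dist x y < 2 * t * r) (hne : P.Nonempty) :
    (P.card : ℝ) ≤ ((n + s * k + 1).choose (s * k) : ℕ) *
      (1 + (P.card - 1) * ((((1 + ε) ^ 2 - 1) * t ^ (2 * (s - 1))) ^ k) ^ 2) := by
  apply local_card hX.1 ht hε _ hne
  intro x hx
  obtain ⟨hxX, a, ha⟩ := hP hx
  refine ⟨fun i => max (a i) (2 * r), fun i => le_max_right _ _, ?_⟩
  intro y hy hxy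
  have hyX := (hP hy).1
  have h1 : dist x y < 2 * t * r := hz x hx y hy hxy
  refine ⟨h1, ?_⟩
  obtain ⟨i, hi1, hi2⟩ := ha y hyX hxy.symm h1
  refine ⟨i, max_le hi1 (sep_gen hX hxX hyX hxy), hi2.trans ?_⟩
  exact mul_le_mul_of_nonneg_left (le_max_left _ _) (by linarith)

theorem few_close {X : Set (EuclideanSpace ℝ (Fin n))} {r t : ℝ} {s : ℕ}
    (hX : IsPacking X r) (ht : 1 ≤ t) (Q : Finset (EuclideanSpace ℝ (Fin n)))
    (hQ : ↑Q ⊆ fewDist X r t s)
    (hz : ∀ x ∈ Q, ∀ y ∈ Q, x ≠ y → dist x y < 2 * t * r) : Q.card ≤ (n + s + 1).choose s := by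
  classical
  rcases Q.eq_empty_or_nonempty with h0 | hne
  · rw [h0]; simp
  have h2 := close_bound (k := 1) hX ht le_rfl Q (fun x hx => few_sub (hQ hx)) hz hne
  simp only [add_zero, one_pow, sub_self, zero_mul, ne_eq, one_ne_zero, not_false_eq_true,
    zero_pow, OfNat.ofNat_ne_zero, mul_zero, mul_one] at h2
  exact_mod_cast h2

theorem few_dens' {X : Set (EuclideanSpace ℝ (Fin n))} {r t : ℝ} {s m : ℕ}
    (hX : IsPacking X r) (ht : 1 ≤ t) (hm : 1 ≤ m) :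
    upperDensity (fewDist X r t s) r ≤
      (((m + (n + s + 1).choose s).choose m - 1 : ℕ) : ℝ) * (√((m + 1) / (2 * m)) / t) ^ n :=
  dens_of_close (sub_packing hX fun _ hx => hx.1) (by linarith) hm
    fun Q hQ hz => few_close hX ht Q hQ hz

theorem few_asym' {δ : ℝ} (hδ : 0 < δ) : ∃ σ : ℝ, 0 < σ ∧ ∀ᶠ n : ℕ in atTop,
    ∀ (X : Set (EuclideanSpace ℝ (Fin n))) (r t : ℝ) (s : ℕ), IsPacking X r → 1 ≤ t →
      (s : ℝ) ≤ σ * n → upperDensity (fewDist X r t s) r ≤ ((2 : ℝ) ^ δ / (√2 * t)) ^ n := by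
  obtain ⟨σ, hσ0, hσ⟩ := close_asym hδ
  obtain ⟨μ, hμ0, -, hμ⟩ := choose_small hσ0
  refine ⟨μ, hμ0, ?_⟩
  filter_upwards [hσ, hμ] with n hn hch X r t s hX ht hs
  apply hn (fewDist X r t s) r t (sub_packing hX fun _ hx => hx.1) (by linarith)
    ((n + s + 1).choose s)
  · have h1 := hch s hs
    have : (0 : ℝ) ≤ ((n + s + 1).choose s : ℝ) := Nat.cast_nonneg _
    linarith
  · exact fun Q hQ hz => few_close hX ht Q hQ hz

theorem windows_close {X : Set (EuclideanSpace ℝ (Fin n))} {r t ε : ℝ} {s k : ℕ}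
    (hX : IsPacking X r) (ht : 1 ≤ t) (hε : 0 ≤ ε)
    (hk : 2 * ((n + s * k + 1).choose (s * k) : ℝ) *
      (((1 + ε) ^ 2 - 1) * t ^ (2 * (s - 1))) ^ (2 * k) ≤ 1)
    (P : Finset (EuclideanSpace ℝ (Fin n))) (hP : ↑P ⊆ fewWindows X r t s ε)
    (hz : ∀ x ∈ P, ∀ y ∈ P, x ≠ y → dist x y < 2 * t * r) :
    P.card ≤ 2 * (n + s * k + 1).choose (s * k) := by
  classical
  set D := (n + s * k + 1).choose (s * k) with hD
  by_contra hcon
  push Not at hcon
  obtain ⟨Q, hQP, hQ⟩ := Finset.exists_subset_card_eq (show 2 * D + 1 ≤ P.card by omega)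
  have hne : Q.Nonempty := by
    rw [← Finset.card_pos]
    omega
  have h2 := close_bound (k := k) hX ht hε Q (fun x hx => hP (hQP hx))
    (fun x hx y hy => hz x (hQP hx) y (hQP hy)) hne
  rw [hQ, ← pow_mul, mul_comm k 2] at h2
  push_cast at h2
  set q := (((1 + ε) ^ 2 - 1) * t ^ (2 * (s - 1))) ^ (2 * k) with hq
  have hD0 : (0 : ℝ) ≤ D := Nat.cast_nonneg _
  have h3 : (D : ℝ) * (1 + (2 * D + 1 - 1) * q) ≤ 2 * D := by nlinarith
  linarith

theorem windows_asym' {t δ : ℝ} (ht : 1 ≤ t) (hδ : 0 < δ) (s : ℕ) : ∃ ε : ℝ, 0 < ε ∧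
    ∀ᶠ n : ℕ in atTop, ∀ (X : Set (EuclideanSpace ℝ (Fin n))) (r : ℝ), IsPacking X r →
      upperDensity (fewWindows X r t s ε) r ≤ ((2 : ℝ) ^ δ / (√2 * t)) ^ n := by
  obtain ⟨σ0, hσ0, hσ⟩ := close_asym hδ
  obtain ⟨μ, hμ0, -, hμ⟩ := choose_small hσ0
  have hs1 : (0 : ℝ) < s + 1 := by positivity
  have ht0 : 0 < t := by linarith
  set A : ℝ := (2 : ℝ) ^ (-(σ0 * (s + 1) / μ)) with hA
  have hA0 : 0 < A := by positivity
  set M : ℝ := t ^ (2 * (s - 1)) with hM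
  have hM0 : 0 < M := by positivity
  obtain ⟨ε, hε0, hε⟩ : ∃ ε : ℝ, 0 < ε ∧ ((1 + ε) ^ 2 - 1) * M ≤ A := by
    refine ⟨min 1 (A / (3 * M)), by positivity, ?_⟩
    have h1 : min 1 (A / (3 * M)) ≤ 1 := min_le_left _ _
    have h2 : min 1 (A / (3 * M)) ≤ A / (3 * M) := min_le_right _ _
    have h3 : 0 < min 1 (A / (3 * M)) := by positivity
    set ε := min 1 (A / (3 * M))
    calc ((1 + ε) ^ 2 - 1) * M ≤ (3 * ε) * M :=
          mul_le_mul_of_nonneg_right (by nlinarith) hM0.le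
      _ ≤ (3 * (A / (3 * M))) * M :=
          mul_le_mul_of_nonneg_right (by linarith) hM0.le
      _ = A := by field_simp
  refine ⟨ε, hε0, ?_⟩
  filter_upwards [hσ, hμ, eventually_ge_atTop ⌈2 * (s + 1) / μ⌉₊] with n hcl hn hn2 X r hX
  have hn2' : 2 * (s + 1) / μ ≤ n := (Nat.le_ceil _).trans (by exact_mod_cast hn2)
  rw [div_le_iff₀ hμ0] at hn2'
  set k := ⌊μ * n / (s + 1)⌋₊ with hk
  have hk1 : (k : ℝ) ≤ μ * n / (s + 1) := Nat.floor_le (by positivity)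
  have hk2 : μ * n / (s + 1) < k + 1 := Nat.lt_floor_add_one _
  have hk3 : μ * n / (2 * (s + 1)) ≤ k := by
    have h1 : 2 ≤ μ * n / (s + 1) := by
      rw [le_div_iff₀ hs1]; linarith
    have h2 : μ * n / (2 * (s + 1)) = (μ * n / (s + 1)) / 2 := by field_simp
    rw [h2]; linarith
  have hsk : ((s * k : ℕ) : ℝ) ≤ μ * n := by
    push_cast
    rw [le_div_iff₀ hs1] at hk1
    have : (0 : ℝ) ≤ k := Nat.cast_nonneg _
    nlinarith
  have h1 := hn (s * k) hsk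
  have hq0 : 0 ≤ ((1 + ε) ^ 2 - 1) * M := mul_nonneg (by nlinarith) hM0.le
  have h2 : (((1 + ε) ^ 2 - 1) * M) ^ (2 * k) ≤ (2 : ℝ) ^ (-(σ0 * n)) := by
    calc (((1 + ε) ^ 2 - 1) * M) ^ (2 * k) ≤ A ^ (2 * k) := pow_le_pow_left₀ hq0 hε _
      _ = (2 : ℝ) ^ (-(σ0 * (s + 1) / μ) * ((2 * k : ℕ) : ℝ)) := by
          rw [hA, ← Real.rpow_natCast, ← Real.rpow_mul (by norm_num)]
      _ ≤ (2 : ℝ) ^ (-(σ0 * n)) := by
          apply Real.rpow_le_rpow_of_exponent_le (by norm_num)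
          have h3 : σ0 * n = σ0 * (s + 1) / μ * (2 * (μ * n / (2 * (s + 1)))) := by
            field_simp
          rw [h3, neg_mul, neg_le_neg_iff]
          apply mul_le_mul_of_nonneg_left _ (by positivity)
          push_cast
          linarith
  apply hcl (fewWindows X r t s ε) r t (sub_packing hX fun _ hx => hx.1) ht0
    (2 * (n + s * k + 1).choose (s * k))
  · push_cast
    exact h1
  · intro Q hQ hz
    apply windows_close hX ht hε0.le _ Q hQ hz
    calc 2 * ((n + s * k + 1).choose (s * k) : ℝ) * (((1 + ε) ^ 2 - 1) * M) ^ (2 * k)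
        ≤ (2 : ℝ) ^ (σ0 * n) * (2 : ℝ) ^ (-(σ0 * n)) :=
          mul_le_mul h1 h2 (pow_nonneg hq0 _) (by positivity)
      _ = 1 := by
          rw [← Real.rpow_add (by norm_num), add_neg_cancel, Real.rpow_zero]

/-- **Kernels of small rank.** -/
theorem kernel_asym {δ : ℝ} (hδ : 0 < δ) : ∃ σ : ℝ, 0 < σ ∧ ∀ᶠ n : ℕ in atTop,
    ∀ (Y : Set (EuclideanSpace ℝ (Fin n))) (r t : ℝ), IsPacking Y r → 0 < t →
      ∀ (K R k : Type) [Field K] [CommRing R] [Field k] (ψ : R →+* K) (φ : R →+* k)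
        (F : Y → Y → R) (V : Submodule K (Y → K)), Function.Injective ψ →
        FiniteDimensional K V → (Module.finrank K V : ℝ) ≤ (2 : ℝ) ^ (σ * n) →
        (∀ x, (fun y => ψ (F x y)) ∈ V) → (∀ x, φ (F x x) ≠ 0) →
        (∀ x y : Y, x ≠ y → dist (x : EuclideanSpace ℝ (Fin n)) y < 2 * t * r → φ (F x y) = 0) →
        upperDensity Y r ≤ ((2 : ℝ) ^ δ / (√2 * t)) ^ n := by
  classical
  obtain ⟨σ, hσ0, hσ⟩ := close_asym hδ
  refine ⟨σ, hσ0, ?_⟩
  filter_upwards [hσ] with n hn Y r t hY ht K R k _ _ _ ψ φ F V hψ hfin hV hrow hd hoff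
  apply hn Y r t hY ht (Module.finrank K V) hV
  intro Q hQ hz
  apply kernel_close hψ φ F V hfin le_rfl hrow hd Q hQ
  intro x y hx hy hxy
  apply hoff x y hxy
  exact hz x hx y hy (fun h => hxy (Subtype.ext h))

/-- products of affine functions of the squared distance -/
theorem dist_aff_mem {Y : Type*} (p : Y → EuclideanSpace ℝ (Fin n))
    (x : EuclideanSpace ℝ (Fin n)) {s : ℕ} (α β : Fin s → ℝ) :
    (fun y => ∏ i, (α i * dist x (p y) ^ 2 + β i)) ∈
      Pool.Agent.H442SN.polySp (fun y => zc (p y)) s := by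
  classical
  have h := Pool.Agent.H442SN.prod_mem (fun y : Y => zc (p y)) (Fintype.card_fin s)
    (fun i => (Sum.elim (fun j => -2 * α i * x j)
      (fun b => if b then α i else α i * ‖x‖ ^ 2 + β i) : Fin n ⊕ Bool → ℝ))
  convert h using 2 with y
  refine Finset.prod_congr rfl fun i _ => ?_
  rw [Fintype.sum_sum_type, Fintype.sum_bool]
  simp only [Sum.elim_inl, Sum.elim_inr, zc, if_true, Bool.false_eq_true, if_false]
  have h1 : dist x (p y) ^ 2 = ‖x‖ ^ 2 - 2 * ∑ j, x j * p y j + ‖p y‖ ^ 2 := by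
    rw [dist_eq_norm, norm_sub_sq_real]
    congr 2
    simp only [PiLp.inner_apply, RCLike.inner_apply, conj_trivial]
    congr 1
    exact Finset.sum_congr rfl fun i _ => mul_comm _ _
  have h2 : ∑ j, -2 * α i * x j * p y j = -2 * α i * ∑ j, x j * p y j := by
    rw [Finset.mul_sum]
    exact Finset.sum_congr rfl fun j _ => by ring
  rw [h1, h2]
  ring

/-- **Prime powers.** -/
theorem prime_asym {δ : ℝ} (hδ : 0 < δ) : ∃ σ : ℝ, 0 < σ ∧ ∀ᶠ n : ℕ in atTop,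
    ∀ (Y : Set (EuclideanSpace ℝ (Fin n))) (r t : ℝ), IsPacking Y r → 0 < t →
      ∀ η : ℝ, 0 < η → (∀ x ∈ Y, ∀ y ∈ Y, ∃ N : ℕ, dist x y ^ 2 = η * N) →
      ∀ p a : ℕ, p.Prime → ((p ^ a : ℕ) : ℝ) ≤ σ * n →
      (∀ x ∈ Y, ∀ y ∈ Y, x ≠ y → dist x y < 2 * t * r →
        ¬ ∃ N : ℕ, dist x y ^ 2 = η * (p ^ a * N)) →
        upperDensity Y r ≤ ((2 : ℝ) ^ δ / (√2 * t)) ^ n := by
  classical
  obtain ⟨σ, hσ0, hσ⟩ := kernel_asym hδ
  obtain ⟨μ, hμ0, -, hμ⟩ := choose_small hσ0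
  refine ⟨μ, hμ0, ?_⟩
  filter_upwards [hσ, hμ] with n hn hch Y r t hY ht η hη hN p a hp hq hdiv
  set s := p ^ a - 1 with hs
  have hfact : Fact p.Prime := ⟨hp⟩
  have hsn : (s : ℝ) ≤ μ * n := by
    refine le_trans ?_ hq
    exact_mod_cast Nat.sub_le _ _
  have hN' : ∀ x y : Y, ∃ N : ℕ, dist (x : EuclideanSpace ℝ (Fin n)) y ^ 2 = η * N :=
    fun x y => hN x x.2 y y.2
  choose N hN using hN'
  have hrow : ∀ x : Y, (fun y : Y => (Int.castRingHom ℝ) (((N x y + s).choose s : ℕ) : ℤ)) ∈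
      Pool.Agent.H442SN.polySp (fun y : Y => zc (y : EuclideanSpace ℝ (Fin n))) s := by
    intro x
    have h := dist_aff_mem (fun y : Y => (y : EuclideanSpace ℝ (Fin n))) x.1
      (s := s) (fun i => 1 / ((i : ℝ) + 1) / η) (fun _ => 1)
    convert h using 2 with y
    rw [hN, eq_intCast, Int.cast_natCast, ← Pool.Agent.H442SN.prod_choose]
    refine Finset.prod_congr rfl fun i _ => ?_
    field_simp
  refine hn Y r t hY ht ℝ ℤ (ZMod p) (Int.castRingHom ℝ) (Int.castRingHom (ZMod p))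
    (fun x y => (((N x y + s).choose s : ℕ) : ℤ))
    (Pool.Agent.H442SN.polySp (fun y : Y => zc (y : EuclideanSpace ℝ (Fin n))) s)
    (RingHom.injective_int _) (Pool.Agent.H442SN.finite_polySp _ _) ?_ hrow ?_ ?_
  · have h1 := Pool.Agent.H442SN.finrank_polySp
      (fun y : Y => zc (y : EuclideanSpace ℝ (Fin n))) s
    have h2 := hch s hsn
    have h3 : ((n + 1 + s).choose s : ℕ) = (n + s + 1).choose s := by
      congr 1
      omega
    rw [h3] at h1
    have h4 : (Module.finrank ℝ (Pool.Agent.H442SN.polySp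
      (fun y : Y => zc (y : EuclideanSpace ℝ (Fin n))) s) : ℝ) ≤ ((n + s + 1).choose s : ℕ) := by
      exact_mod_cast h1
    have h5 : (0 : ℝ) ≤ ((n + s + 1).choose s : ℕ) := Nat.cast_nonneg _
    linarith
  · intro x
    have h1 : N x x = 0 := by
      have h2 := hN x x
      rw [dist_self] at h2
      have h3 : (N x x : ℝ) = 0 := by
        have : η * (N x x : ℝ) = 0 := by rw [← h2]; norm_num
        rcases mul_eq_zero.1 this with h | h
        · exact absurd h hη.ne'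
        · exact h
      exact_mod_cast h3
    simp [h1]
  · intro x y hxy hd
    have h1 : ¬ p ^ a ∣ N x y := by
      rintro ⟨c, hc⟩
      apply hdiv x x.2 y y.2 (fun h => hxy (Subtype.ext h)) hd
      refine ⟨c, ?_⟩
      rw [hN, hc]
      push_cast
      ring
    have h2 := Pool.Agent.H442SN.dvd_choose hp h1
    rw [← hs] at h2
    rw [eq_intCast, Int.cast_natCast]
    exact (ZMod.natCast_eq_zero_iff _ _).2 h2

end Pool.Agent.H442FD2
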